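import Mathlib
import Pool.Agent.H.MP_4abfef_an.E

namespace Pool.Agent.H.MP_2967d5_an

open MeasureTheory Set Filter Topology ProbabilityTheory Pool.Agent.H.MP_a7cd30_an
  Pool.Agent.H.MP_20f905_an Pool.Agent.H.MP_5d8c24_an Pool.Agent.H.MP_4abfef_an

section
variable {α : Type} [mα : MeasurableSpace α] [StandardBorelSpace α] {μ : Measure α}

theorem realize2 {f g : α → α} (hf : MeasurePreserving f μ μ) (hg : Measurable g)
    (hgf : ∀ᵐ x ∂μ, g (f x) = x) :
    ∃ e : α ≃ᵐ α, ⇑e =ᵐ[μ] f ∧ ∀ x, e x = f x ∨ e x = x := by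
  classical
  have hg' : MeasurePreserving g μ μ := by
    refine ⟨hg, ?_⟩
    conv_lhs => rw [← hf.map_eq]
    rw [Measure.map_map hg hf.measurable, Measure.map_congr (f := g ∘ f) (g := id) hgf,
      Measure.map_id]
  have hm1 : MeasurableSet {x | g (f x) = x} :=
    measurableSet_eq_fun (hg.comp hf.measurable) measurable_id
  have hm2 : MeasurableSet {x | f (g x) = x} :=
    measurableSet_eq_fun (hf.measurable.comp hg) measurable_id
  have hfg : ∀ᵐ y ∂μ, f (g y) = y := by
    rw [← hf.map_eq, ae_map_iff hf.measurable.aemeasurable hm2]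
    filter_upwards [hgf] with x hx
    rw [hx]
  let A : Set α := {x | g (f x) = x} ∩ {x | f (g x) = x}
  have hA : MeasurableSet A := hm1.inter hm2
  have hAae : ∀ᵐ x ∂μ, x ∈ A := hgf.and hfg
  let B : Set α := {x | ∀ n m : ℕ, f^[n] (g^[m] x) ∈ A}
  have hB : MeasurableSet B := by
    have : B = ⋂ n : ℕ, ⋂ m : ℕ, (f^[n] ∘ g^[m]) ⁻¹' A := by ext x; simp [B]
    rw [this]
    exact MeasurableSet.iInter fun n => MeasurableSet.iInter fun m =>
      ((hf.measurable.iterate n).comp (hg.iterate m)) hA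
  have hBae : ∀ᵐ x ∂μ, x ∈ B := by
    refine ae_all_iff.2 fun n => ae_all_iff.2 fun m => ?_
    exact ((hf.iterate n).comp (hg'.iterate m)).quasiMeasurePreserving.ae hAae
  have hBA : ∀ x ∈ B, x ∈ A := fun x hx => hx 0 0
  have hBg : ∀ x ∈ B, g x ∈ B := fun x hx n m => by
    rw [← Function.iterate_succ_apply]; exact hx n (m + 1)
  have hBf : ∀ x ∈ B, f x ∈ B := fun x hx n m => by
    cases m with
    | zero => exact hx (n + 1) 0
    | succ m =>
      rw [Function.iterate_succ_apply, (hBA x hx).1]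
      exact hx n m
  let e : α ≃ᵐ α :=
    { toFun := B.piecewise f id
      invFun := B.piecewise g id
      left_inv := fun x => by
        by_cases hx : x ∈ B
        · rw [piecewise_eq_of_mem _ _ _ hx, piecewise_eq_of_mem _ _ _ (hBf x hx)]
          exact (hBA x hx).1
        · rw [piecewise_eq_of_notMem _ _ _ hx, id, piecewise_eq_of_notMem _ _ _ hx, id]
      right_inv := fun x => by
        by_cases hx : x ∈ B
        · rw [piecewise_eq_of_mem _ _ _ hx, piecewise_eq_of_mem _ _ _ (hBg x hx)]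
          exact (hBA x hx).2
        · rw [piecewise_eq_of_notMem _ _ _ hx, id, piecewise_eq_of_notMem _ _ _ hx, id]
      measurable_toFun := hf.measurable.piecewise hB measurable_id
      measurable_invFun := hg.piecewise hB measurable_id }
  refine ⟨e, hBae.mono fun x hx => piecewise_eq_of_mem _ _ _ hx, fun x => ?_⟩
  by_cases hx : x ∈ B
  exacts [Or.inl (piecewise_eq_of_mem _ _ _ hx), Or.inr (piecewise_eq_of_notMem _ _ _ hx)]

/-- automorphisms -/
abbrev Aut (μ : Measure α) := {e : α ≃ᵐ α // MeasurePreserving e.toFun μ μ}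

theorem baire [IsProbabilityMeasure μ] [NullSingletonClass μ] {C : Set (Aut μ)}
    (hC : IsClosed[ta μ] C) (hne : C.Nonempty) :
    ¬ (∅ : Set C) ∈ @residual C ((ta μ).induced Subtype.val) := by
  let _ := ta μ
  obtain ⟨f, g, hf, hg, gf, fg⟩ := iso (μ := μ)
  have a : ∀ T : Aut μ, ∃ U : G, ∀ᵐ x ∂μ, f (T.1 x) = U.1 (f x) := fun T => by
    have hT : MeasurePreserving T.1 μ μ := T.2
    obtain ⟨U, hU, -⟩ := realize (hf.comp (hT.comp hg))
      (hf.measurable.comp (T.1.symm.measurable.comp hg.measurable)) (by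
        filter_upwards [fg, (hT.comp hg).quasiMeasurePreserving.ae gf] with y h1 h2
        simp only [Function.comp] at h2 ⊢
        rw [h2, T.1.symm_apply_apply, h1])
    refine ⟨U, ?_⟩
    filter_upwards [hf.quasiMeasurePreserving.ae hU, gf] with x h1 h2
    rw [h1]; simp only [Function.comp, h2]
  have b : ∀ U : G, ∃ T : Aut μ, ∀ᵐ y ∂mu, g (U.1 y) = T.1 (g y) := fun U => by
    obtain ⟨T, hT⟩ := realize' (hg.comp (U.2.comp hf))
      (hg.measurable.comp (U.1.symm.measurable.comp hf.measurable)) (by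
        filter_upwards [gf, (U.2.comp hf).quasiMeasurePreserving.ae fg] with y h1 h2
        simp only [Function.comp] at h2 ⊢
        rw [h2, U.1.symm_apply_apply, h1])
    refine ⟨T, ?_⟩
    filter_upwards [hg.quasiMeasurePreserving.ae hT, fg] with x h1 h2
    rw [h1]; simp only [Function.comp, h2]
  choose Φ hΦ using a
  choose Ψ hΨ using b
  have cΦ : Continuous Φ := by
    refine Eq.subst (motive := fun t => Continuous[_, t] Φ) fz_eq
      (continuous_generateFrom_iff.2 ?_)
    rintro _ ⟨T₀, A, hA, δ, -, rfl⟩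
    have c : Continuous fun T : Aut μ =>
        μ (symmDiff (Set.preimage T.1.toFun (f ⁻¹' A)) (f ⁻¹' (T₀.1 ⁻¹' A))) :=
      continuous_iff_le_induced.2 (iInf_le_of_le _ (iInf_le_of_le _ (iInf_le_of_le
        (hf.measurable hA) (iInf_le_of_le (hf.measurable (T₀.1.measurable hA)) le_rfl))))
    convert isOpen_lt c (continuous_const (y := ENNReal.ofReal δ)) using 1
    ext T
    rw [mem_preimage, mem_ofPred_eq, mem_ofPred_eq, ← hf.measure_preimage
      (((Φ T).1.measurable hA).symmDiff (T₀.1.measurable hA)).nullMeasurableSet, preimage_symmDiff,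
      measure_congr (EventuallyEq.symmDiff (t := T.1.toFun ⁻¹' (f ⁻¹' A)) ?_ (ae_eq_refl _))]
    filter_upwards [hΦ T] with x hx
    show ((Φ T).1 (f x) ∈ A) = (f (T.1 x) ∈ A)
    rw [hx]
  have cΨ : Continuous Ψ := by
    refine continuous_iInf_rng.2 fun A => continuous_iInf_rng.2 fun B =>
      continuous_iInf_rng.2 fun hA => continuous_iInf_rng.2 fun hB =>
      continuous_induced_rng.2 ?_
    refine (ENNReal.continuous_ofReal.comp (cont_sd (hg.measurable hA)
      (hg.measurable hB))).congr fun U => ?_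
    simp only [Function.comp]
    rw [ofReal_measureReal (measure_ne_top _ _), ← hg.measure_preimage
      (((Ψ U).2.measurable hA).symmDiff hB).nullMeasurableSet, preimage_symmDiff]
    refine measure_congr (EventuallyEq.symmDiff ?_ (ae_eq_refl _))
    filter_upwards [hΨ U] with x hx
    show (g (U.1 x) ∈ A) = ((Ψ U).1 (g x) ∈ A)
    rw [hx]
  have i1 : ∀ T, Inseparable (Ψ (Φ T)) T := fun T => by
    have e : ⇑(Ψ (Φ T)).1 =ᵐ[μ] T.1 := by
      have hT : MeasurePreserving T.1 μ μ := T.2
      filter_upwards [hf.quasiMeasurePreserving.ae (hΨ (Φ T)), hΦ T, gf,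
        hT.quasiMeasurePreserving.ae gf] with x h1 h2 h3 h4
      rw [← h4, h2, h1, h3]
    simp only [Inseparable, nhds_iInf, nhds_induced]
    refine iInf_congr fun A => iInf_congr fun B => iInf_congr fun _ => iInf_congr fun _ => ?_
    congr 2
    refine measure_congr (EventuallyEq.symmDiff ?_ (ae_eq_refl _))
    filter_upwards [e] with x hx
    show ((Ψ (Φ T)).1 x ∈ A) = (T.1 x ∈ A)
    rw [hx]
  have i2 : ∀ U, Inseparable (Φ (Ψ U)) U := fun U => by
    have e : ⇑(Φ (Ψ U)).1 =ᵐ[mu] U.1 := by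
      filter_upwards [hg.quasiMeasurePreserving.ae (hΦ (Ψ U)), hΨ U, fg,
        U.2.quasiMeasurePreserving.ae fg] with x h1 h2 h3 h4
      rw [← h4, h2, h1, h3]
    have e2 : koop _ (Φ (Ψ U)).2 idL = koop _ U.2 idL :=
      Lp.ext ((koop_id _).trans (e.trans (koop_id _).symm))
    exact (specializes_iff_pure.2 (tend_of (F := id) (L := pure (Φ (Ψ U))) (T := U)
      (by rw [← e2]; exact tendsto_pure_nhds _ _))).inseparable
  have hC' : IsClosed (Ψ ⁻¹' C) := hC.preimage cΨ
  have := hC'.completeSpace_coe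
  have m : ∀ T : C, Φ T ∈ Ψ ⁻¹' C := fun T => ((i1 T).mem_closed_iff hC).2 T.2
  have : Nonempty (Ψ ⁻¹' C) := ⟨⟨_, m ⟨_, hne.some_mem⟩⟩⟩
  have key := res_transfer (Φ := fun U : Ψ ⁻¹' C => (⟨Ψ U, U.2⟩ : C))
    (Ψ := fun T : C => (⟨Φ T, m T⟩ : Ψ ⁻¹' C))
    ((cΨ.comp continuous_subtype_val).subtype_mk _) ((cΦ.comp continuous_subtype_val).subtype_mk _)
    (fun U W hW hU => ((subtype_inseparable_iff _ _).2 (i2 U) |>.mem_open_iff hW).2 hU)
    fun U W hW hU => ((subtype_inseparable_iff _ _).2 (i1 U) |>.mem_open_iff hW).2 hU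
  intro h
  simpa using (dense_of_mem_residual (key h)).nonempty

omit [StandardBorelSpace α] in
lemma tend_ta [IsFiniteMeasure μ] {ι : Type} {l : Filter ι} {F : ι → Aut μ} {T : Aut μ} :
    Tendsto F l (@nhds _ (ta μ) T) ↔ ∀ A, MeasurableSet A →
      Tendsto (fun i => μ.real (symmDiff ((F i).1 ⁻¹' A) (T.1 ⁻¹' A))) l (𝓝 0) := by
  simp only [nhds_iInf, nhds_induced, tendsto_iInf, tendsto_comap_iff]
  refine ⟨fun h A hA => ?_, fun h A B hA hB => ?_⟩
  · have := (ENNReal.tendsto_toReal (measure_ne_top _ _)).comp (h A _ hA (T.1.measurable hA))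
    rw [show T.1.toFun = T.1 from rfl, symmDiff_self, bot_eq_empty, measure_empty,
      ENNReal.toReal_zero] at this
    exact this
  · rw [Function.comp_def, ← ENNReal.tendsto_toReal_iff (fun _ => measure_ne_top _ _)
      (measure_ne_top _ _), tendsto_iff_dist_tendsto_zero]
    refine squeeze_zero (fun _ => dist_nonneg) (fun n => ?_) (h A hA)
    refine (abs_measureReal_sub_le_measureReal_symmDiff
      (((F n).1.measurable hA).symmDiff hB).nullMeasurableSet
      ((T.1.measurable hA).symmDiff hB).nullMeasurableSet).trans (le_of_eq ?_)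
    rw [symmDiff_symmDiff_symmDiff_comm, symmDiff_self, symmDiff_bot]

/-- weak topology through images -/
@[reducible] def wk (μ : Measure α) : TopologicalSpace (Aut μ) :=
  TopologicalSpace.generateFrom {N | ∃ (T : Aut μ) (E : Set α) (ε : ℝ), MeasurableSet E ∧ 0 < ε ∧
    N = {S | μ (symmDiff (T.1 '' E) (S.1 '' E)) < ENNReal.ofReal ε}}

omit [StandardBorelSpace α] in
lemma sw (S T : Aut μ) {E : Set α} (hE : MeasurableSet E) :
    μ (symmDiff (T.1 '' E) (S.1 '' E)) =
      μ (symmDiff (S.1 ⁻¹' (T.1 '' E)) (T.1 ⁻¹' (T.1 '' E))) := by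
  have hS : MeasurePreserving S.1 μ μ := S.2
  rw [← hS.measure_preimage ((T.1.measurableSet_image.2 hE).symmDiff
    (S.1.measurableSet_image.2 hE)).nullMeasurableSet, preimage_symmDiff,
    preimage_image_eq _ S.1.injective, preimage_image_eq _ T.1.injective]

omit [StandardBorelSpace α] in
lemma wk_eq [IsFiniteMeasure μ] : wk μ = ta μ := by
  refine TopologicalSpace.ext_nhds fun T => le_antisymm ?_ ?_
  · refine (tend_ta (F := id)).2 fun A hA => Metric.tendsto_nhds.2 fun ε hε => ?_
    let _ := wk μ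
    have o : IsOpen {S : Aut μ | μ (symmDiff (T.1 '' (T.1 ⁻¹' A)) (S.1 '' (T.1 ⁻¹' A))) <
        ENNReal.ofReal ε} :=
      TopologicalSpace.isOpen_generateFrom_of_mem ⟨T, _, ε, T.1.measurable hA, hε, rfl⟩
    filter_upwards [o.mem_nhds (by simpa using hε)] with S hS
    rw [sw _ _ (T.1.measurable hA), image_preimage_eq _ T.1.surjective] at hS
    rw [Real.dist_eq, sub_zero, abs_of_nonneg measureReal_nonneg]
    exact ENNReal.toReal_lt_of_lt_ofReal hS
  · refine TopologicalSpace.tendsto_nhds_generateFrom_iff.2 ?_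
    rintro _ ⟨T0, E, ε, hE, -, rfl⟩ h
    have t := ((tend_ta (F := id)).1 (tendsto_id (x := @nhds _ (ta μ) T)) _
      (T.1.measurableSet_image.2 hE)).const_add (μ.real (symmDiff (T0.1 '' E) (T.1 '' E)))
    rw [add_zero] at t
    filter_upwards [t.eventually (gt_mem_nhds (ENNReal.toReal_lt_of_lt_ofReal h))] with S hS
    refine (ENNReal.lt_ofReal_iff_toReal_lt (measure_ne_top _ _)).2 (lt_of_le_of_lt ?_ hS)
    refine (measureReal_symmDiff_le (t := T.1 '' E) _).trans (add_le_add le_rfl (le_of_eq ?_))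
    rw [Measure.real, sw _ _ hE]; rfl

end

variable {X Y : Type} [MeasurableSpace X] [MeasurableSpace Y] {μ : Measure X} {ν : Measure Y}
  [IsProbabilityMeasure μ] [IsProbabilityMeasure ν] [StandardBorelSpace X] [StandardBorelSpace Y]

theorem disint (R : X ≃ᵐ X) (hR : MeasurePreserving R μ μ) (T : X × Y ≃ᵐ X × Y)
    (hT : MeasurePreserving T (μ.prod ν) (μ.prod ν)) (h : ∀ᵐ p ∂μ.prod ν, (T p).1 = R p.1) :
    ∃ Φ : X → Y ≃ᵐ Y, JM ν Φ ∧ sk R Φ =ᵐ[μ.prod ν] T := by
  classical
  have hF : MeasurePreserving (fun p => (p.1, (T p).2)) (μ.prod ν) (μ.prod ν) :=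
    (((hR.symm R).prod (MeasurePreserving.id ν)).comp hT).congr (by fun_prop) (by
      filter_upwards [h] with p hp
      simp [Prod.map, hp])
  obtain ⟨e, e1, e2⟩ := realize2 hF (g := fun p => (p.1, (T.symm (R p.1, p.2)).2)) (by fun_prop) (by
    filter_upwards [h] with p hp
    simp [← hp])
  have he := hF.congr e.measurable e1.symm
  have f1 : ∀ x y, (x, (e (x, y)).2) = e (x, y) := fun x y =>
    Prod.ext (by rcases e2 (x, y) with q | q <;> rw [q]) rfl
  have f2 : ∀ x y, (x, (e.symm (x, y)).2) = e.symm (x, y) := fun x y => by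
    have := congrArg Prod.fst (f1 (e.symm (x, y)).1 (e.symm (x, y)).2)
    simp only [Prod.mk.eta, e.apply_symm_apply] at this
    exact Prod.ext this.symm rfl
  let φ : X → Y ≃ᵐ Y := fun x =>
    { toFun := fun y => (e (x, y)).2
      invFun := fun y => (e.symm (x, y)).2
      left_inv := fun y => by simp only [f1, e.symm_apply_apply]
      right_inv := fun y => by simp only [f2, e.apply_symm_apply]
      measurable_toFun := (e.measurable.comp measurable_prodMk_left).snd
      measurable_invFun := (e.symm.measurable.comp measurable_prodMk_left).snd }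
  let κ : Kernel X Y := ⟨fun x => ν.map (φ x), Measure.measurable_of_measurable_coe _
    fun s hs => by
      simp only [MeasurableEquiv.map_apply]
      exact measurable_measure_prodMk_left (measurable_snd.comp e.measurable hs)⟩
  have : IsMarkovKernel κ :=
    ⟨fun x => Measure.isProbabilityMeasure_map (φ x).measurable.aemeasurable⟩
  have hκ : κ =ᵐ[μ] Kernel.const X ν := Kernel.ae_eq_of_compProd_eq (by
    ext s hs
    rw [Measure.compProd_const, ← he.measure_preimage hs.nullMeasurableSet,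
      Measure.prod_apply (e.measurable hs), Measure.compProd_apply hs]
    refine lintegral_congr fun x => ?_
    show ν.map (φ x) _ = _
    rw [MeasurableEquiv.map_apply]
    congr 1
    ext y
    show (x, (e (x, y)).2) ∈ s ↔ _
    rw [f1]; rfl)
  obtain ⟨N, n1, n2, n3⟩ := exists_measurable_superset_of_null (ae_iff.1 hκ)
  refine ⟨fun x => if x ∈ N then MeasurableEquiv.refl Y else φ x, JM.of (fun x => ?_) ?_, ?_⟩
  · split_ifs with c
    · exact MeasurePreserving.id ν
    · exact ⟨(φ x).measurable, not_not.1 fun q => c (n1 q)⟩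
  · have : (fun p : X × Y => (if p.1 ∈ N then MeasurableEquiv.refl Y else φ p.1) p.2) =
        fun p => if p.1 ∈ N then p.2 else (e p).2 := by
      ext p; split_ifs <;> rfl
    rw [this]
    exact Measurable.ite (measurable_fst n2) measurable_snd (by fun_prop)
  · filter_upwards [h, e1, measurePreserving_fst.quasiMeasurePreserving.ae
      (measure_eq_zero_iff_ae_notMem.1 n3)] with p h1 h2 h3
    refine Prod.ext h1.symm ?_
    simp only [sk, if_neg h3]
    exact (congrArg Prod.snd h2 :)

end Pool.Agent.H.MP_2967d5_an
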