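import Mathlib
import Pool.Agent.H.MP_2967d5_an.A

namespace Pool.Agent.H.MP_2967d5_an

open MeasureTheory Set Filter Topology ProbabilityTheory Pool.Agent.H.MP_a7cd30_an
  Pool.Agent.H.MP_5d8c24_an Pool.Agent.H.MP_4abfef_an
open scoped ENNReal

variable {X Y : Type} [MeasurableSpace X] [MeasurableSpace Y] {μ : Measure X} {ν : Measure Y}
  [IsProbabilityMeasure μ] [IsProbabilityMeasure ν]

/-- conditional covariance -/
noncomputable def cov (ν : Measure Y) (u v : X × Y → ℂ) (x : X) : ℂ :=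
  ∫ y, u (x, y) * v (x, y) ∂ν - (∫ y, u (x, y) ∂ν) * ∫ y, v (x, y) ∂ν

/-- squared fibre norm -/
noncomputable def sq (ν : Measure Y) (u : X × Y → ℂ) (x : X) : ℝ≥0∞ :=
  ∫⁻ y, ‖u (x, y)‖ₑ ^ (2 : ℝ) ∂ν

/-- its mean -/
noncomputable def NN (μ : Measure X) (ν : Measure Y) (u v : X × Y → ℂ) : ℝ≥0∞ :=
  ∫⁻ x, ‖cov ν u v x‖ₑ ∂μ

lemma hc2 : Real.HolderConjugate 2 2 := Real.HolderConjugate.two_two

omit [IsProbabilityMeasure μ] in
lemma cov_le {u v : X × Y → ℂ} (hu : AEStronglyMeasurable u (μ.prod ν))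
    (hv : AEStronglyMeasurable v (μ.prod ν)) :
    ∀ᵐ x ∂μ, ‖cov ν u v x‖ₑ ≤ 2 * (sq ν u x ^ (1 / 2 : ℝ) * sq ν v x ^ (1 / 2 : ℝ)) := by
  filter_upwards [hu.prodMk_left, hv.prodMk_left] with x h1 h2
  have a : ∀ f : Y → ℂ, AEStronglyMeasurable f ν →
      ‖∫ y, f y ∂ν‖ₑ ≤ (∫⁻ y, ‖f y‖ₑ ^ (2 : ℝ) ∂ν) ^ (1 / 2 : ℝ) := fun f hf =>
    (enorm_integral_le_lintegral_enorm _).trans (by
      simpa using ENNReal.lintegral_mul_le_Lp_mul_Lq ν hc2 hf.enorm
        (aemeasurable_const (b := 1)))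
  rw [two_mul]
  refine enorm_sub_le.trans (add_le_add ((enorm_integral_le_lintegral_enorm _).trans ?_) ?_)
  · simp only [enorm_mul]
    exact ENNReal.lintegral_mul_le_Lp_mul_Lq ν hc2 h1.enorm h2.enorm
  · rw [enorm_mul]
    exact mul_le_mul' (a _ h1) (a _ h2)

omit [IsProbabilityMeasure μ] in
lemma sq_int {u : X × Y → ℂ} (hu : AEStronglyMeasurable u (μ.prod ν)) :
    AEMeasurable (sq ν u) μ ∧ (∫⁻ x, (sq ν u x ^ (1 / 2 : ℝ)) ^ (2 : ℝ) ∂μ) ^ (1 / 2 : ℝ) =
      eLpNorm u 2 (μ.prod ν) := by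
  refine ⟨(hu.enorm.pow_const (2 : ℝ)).lintegral_prod_right', ?_⟩
  rw [eLpNorm_eq_lintegral_rpow_enorm_toReal (by simp) (by simp), ENNReal.toReal_ofNat,
    lintegral_prod _ (hu.enorm.pow_const _)]
  simp only [← ENNReal.rpow_mul]
  norm_num [sq]

omit [IsProbabilityMeasure μ] in
lemma NN_le {u v : X × Y → ℂ} (hu : AEStronglyMeasurable u (μ.prod ν))
    (hv : AEStronglyMeasurable v (μ.prod ν)) :
    NN μ ν u v ≤ 2 * (eLpNorm u 2 (μ.prod ν) * eLpNorm v 2 (μ.prod ν)) := by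
  refine (lintegral_mono_ae (cov_le hu hv)).trans ?_
  rw [lintegral_const_mul' _ _ (by simp), ← (sq_int hu).2, ← (sq_int hv).2]
  exact mul_le_mul' le_rfl (ENNReal.lintegral_mul_le_Lp_mul_Lq μ hc2
    ((sq_int hu).1.pow_const _) ((sq_int hv).1.pow_const _))

lemma NN_add {u w v : X × Y → ℂ} (hu : MemLp u 2 (μ.prod ν)) (hw : MemLp w 2 (μ.prod ν))
    (hv : MemLp v 2 (μ.prod ν)) : NN μ ν (u + w) v ≤ NN μ ν u v + NN μ ν w v := by
  have m : AEStronglyMeasurable (cov ν u v) μ :=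
    (hu.1.mul hv.1).integral_prod_right'.sub
      (hu.1.integral_prod_right'.mul hv.1.integral_prod_right')
  rw [NN, NN, NN, ← lintegral_add_left' m.enorm]
  refine lintegral_mono_ae ?_
  filter_upwards [(hu.integrable_mul hv).prod_right_ae, (hw.integrable_mul hv).prod_right_ae,
    (hu.integrable one_le_two).prod_right_ae, (hw.integrable one_le_two).prod_right_ae]
    with x h1 h2 h3 h4
  refine le_trans (le_of_eq (congrArg _ ?_)) (enorm_add_le _ _)
  simp only [cov, Pi.add_apply, add_mul, Pi.mul_apply] at h1 h2 ⊢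
  rw [integral_add h1 h2, integral_add h3 h4]
  ring

omit [MeasurableSpace X] [IsProbabilityMeasure ν] in
lemma cov_comm (u v : X × Y → ℂ) : cov ν u v = cov ν v u := by
  ext x; simp only [cov, mul_comm]

omit [IsProbabilityMeasure μ] in
lemma cov_congr {u u' v v' : X × Y → ℂ} (hu : u =ᵐ[μ.prod ν] u') (hv : v =ᵐ[μ.prod ν] v') :
    cov ν u v =ᵐ[μ] cov ν u' v' := by
  filter_upwards [Measure.ae_ae_of_ae_prod hu, Measure.ae_ae_of_ae_prod hv] with x h1 h2
  rw [cov, cov, integral_congr_ae h1, integral_congr_ae h2,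
    integral_congr_ae (g := fun y => u' (x, y) * v' (x, y))
      ((h1.and h2).mono fun y hy => by simp only [hy.1, hy.2])]

omit [IsProbabilityMeasure μ] in
lemma NN_congr {u u' v v' : X × Y → ℂ} (hu : u =ᵐ[μ.prod ν] u') (hv : v =ᵐ[μ.prod ν] v') :
    NN μ ν u v = NN μ ν u' v' :=
  lintegral_congr_ae ((cov_congr hu hv).mono fun x hx => by simp only [hx])

omit [IsProbabilityMeasure μ] [IsProbabilityMeasure ν] in
lemma NN_smul (c : ℂ) (u v : X × Y → ℂ) : NN μ ν (c • u) v = ‖c‖ₑ * NN μ ν u v := by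
  rw [NN, NN, ← lintegral_const_mul' _ _ enorm_ne_top]
  refine lintegral_congr fun x => ?_
  simp only [cov, Pi.smul_apply, smul_eq_mul, mul_assoc, integral_const_mul, ← mul_sub, enorm_mul]

lemma ext_L2 {W : ℕ → X × Y → X × Y} (hW : ∀ n, MeasurePreserving (W n) (μ.prod ν) (μ.prod ν))
    {v : ℕ → X × Y → ℂ} (hv : ∀ n, MemLp (v n) 2 (μ.prod ν)) {C : ℝ≥0∞} (hC : C ≠ ⊤)
    (hvC : ∀ n, eLpNorm (v n) 2 (μ.prod ν) ≤ C)
    (h : ∀ A B, MeasurableSet A → MeasurableSet B → Tendsto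
      (fun n => NN μ ν ((A ×ˢ B).indicator (fun _ => 1) ∘ W n) (v n)) atTop (𝓝 0))
    {f : X × Y → ℂ} (hf : MemLp f 2 (μ.prod ν)) :
    Tendsto (fun n => NN μ ν (f ∘ W n) (v n)) atTop (𝓝 0) := by
  have cg : ∀ {f g : X × Y → ℂ}, f =ᵐ[μ.prod ν] g → ∀ n,
      NN μ ν (f ∘ W n) (v n) = NN μ ν (g ∘ W n) (v n) := fun e n =>
    NN_congr ((hW n).quasiMeasurePreserving.ae_eq_comp e) (ae_eq_refl _)
  have mc : ∀ (f : Lp ℂ 2 (μ.prod ν)) n, MemLp (f ∘ W n) 2 (μ.prod ν) := fun f n =>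
    (Lp.memLp f).comp_measurePreserving (hW n)
  have ad : ∀ (f g : Lp ℂ 2 (μ.prod ν)) n, NN μ ν (⇑(f + g) ∘ W n) (v n) ≤
      NN μ ν (f ∘ W n) (v n) + NN μ ν (g ∘ W n) (v n) := fun f g n => by
    rw [cg (Lp.coeFn_add f g)]
    exact NN_add (mc f n) (mc g n) (hv n)
  have sm : ∀ (c : ℂ) (f : Lp ℂ 2 (μ.prod ν)) n, NN μ ν (⇑(c • f) ∘ W n) (v n) =
      ‖c‖ₑ * NN μ ν (f ∘ W n) (v n) := fun c f n => by
    rw [cg (Lp.coeFn_smul c f)]
    exact NN_smul c _ _
  let S : Submodule ℂ (Lp ℂ 2 (μ.prod ν)) :=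
    { carrier := {f | Tendsto (fun n => NN μ ν (f ∘ W n) (v n)) atTop (𝓝 0)}
      add_mem' := fun {f g} h1 h2 => tendsto_of_tendsto_of_tendsto_of_le_of_le tendsto_const_nhds
        (by simpa using h1.add h2) (fun _ => zero_le) (ad f g)
      zero_mem' := by
        have := sm 0 0
        simp only [smul_zero, enorm_zero, zero_mul] at this
        simp only [mem_ofPred_eq, this, tendsto_const_nhds]
      smul_mem' := fun c f h1 => by
        simp only [mem_ofPred_eq, sm]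
        simpa using ENNReal.Tendsto.const_mul h1 (Or.inr enorm_ne_top) }
  have hS : S.topologicalClosure = ⊤ := by
    rw [Submodule.topologicalClosure_eq_top_iff, Submodule.eq_bot_iff]
    intro g hg
    have gi := (Lp.memLp g).integrable one_le_two
    have z : ∀ A B, MeasurableSet A → MeasurableSet B → ∫ p in A ×ˢ B, g p ∂μ.prod ν = 0 :=
      fun A B hA hB => by
        rw [← L2.inner_indicatorConstLp_one (hA.prod hB) (measure_ne_top _ _)]
        refine hg _ ?_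
        exact (h A B hA hB).congr fun n => (cg indicatorConstLp_coeFn n).symm
    refine Lp.ext ((gi.ae_eq_zero_of_forall_setIntegral_eq_zero fun s hs _ => ?_).trans
      (Lp.coeFn_zero _ _ _).symm)
    induction s, hs using MeasurableSpace.induction_on_inter generateFrom_prod.symm
      isPiSystem_prod with
    | empty => simp
    | basic t ht =>
      obtain ⟨A, hA, B, hB, rfl⟩ := ht
      exact z A B hA hB
    | compl t ht ih =>
      have := z _ _ MeasurableSet.univ MeasurableSet.univ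
      rw [univ_prod_univ, setIntegral_univ, ← integral_add_compl ht gi,
        ih (measure_lt_top _ _), zero_add] at this
      exact this
    | iUnion f hd hf ih =>
      simp [integral_iUnion hf hd gi.integrableOn, fun i => ih i (measure_lt_top _ _)]
  refine ENNReal.tendsto_nhds_zero.2 fun ε ε0 => ?_
  have t : Tendsto (fun g : Lp ℂ 2 (μ.prod ν) => 2 * (‖hf.toLp f - g‖ₑ * C)) (𝓝 (hf.toLp f))
      (𝓝 (2 * (‖hf.toLp f - hf.toLp f‖ₑ * C))) :=
    ENNReal.Tendsto.const_mul (ENNReal.Tendsto.mul_const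
      ((continuous_const.sub continuous_id).enorm.tendsto _) (Or.inr hC)) (Or.inr (by simp))
  rw [sub_self, enorm_zero, zero_mul, mul_zero] at t
  obtain ⟨g, g1, g2⟩ := mem_closure_iff_nhds.1 (show hf.toLp f ∈ closure (S : Set _) by
    rw [← Submodule.topologicalClosure_coe, hS]; trivial) _
    (ENNReal.tendsto_nhds_zero.1 t (ε / 2) (ENNReal.half_pos ε0.ne'))
  filter_upwards [ENNReal.tendsto_nhds_zero.1 g2 (ε / 2) (ENNReal.half_pos ε0.ne')] with n hn
  rw [← cg hf.coeFn_toLp, ← sub_add_cancel (hf.toLp f) g, ← ENNReal.add_halves ε]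
  refine (ad _ _ n).trans (add_le_add ((NN_le (mc _ n).1 (hv n).1).trans (le_trans ?_ g1)) hn)
  rw [eLpNorm_comp_measurePreserving (Lp.aestronglyMeasurable _) (hW n), Lp.enorm_def]
  exact mul_le_mul' le_rfl (mul_le_mul' le_rfl (hvC n))

lemma rel_L1 {T : X → X} (hT : MeasurePreserving T μ μ) {Φ : X → Y ≃ᵐ Y} (hΦ : JM ν Φ)
    (h : ∀ B : Fin 2 → Set Y, (∀ i, MeasurableSet (B i)) → ∀ ε > 0,
      ∃ N0, ∀ n : Fin 2 → ℕ, (∀ i j, i ≠ j → n i + N0 ≤ n j ∨ n j + N0 ≤ n i) →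
        Q μ ν T Φ n B ≤ ε) {f g : X × Y → ℂ} (hf : MemLp f 2 (μ.prod ν))
    (hg : MemLp g 2 (μ.prod ν)) :
    Tendsto (fun n => NN μ ν (f ∘ (sk T Φ)^[n]) g) atTop (𝓝 0) := by
  have mp := fun n => (sk_mp hT hΦ).iterate n
  simp only [NN, cov_comm _ g]
  refine ext_L2 (W := fun _ => id) (fun _ => MeasurePreserving.id _)
    (fun n => hf.comp_measurePreserving (mp n)) hf.2.ne
    (fun n => (eLpNorm_comp_measurePreserving hf.1 (mp n)).le) (fun A' B' hA' hB' => ?_) hg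
  simp only [NN, ← cov_comm _ (_ ∘ id)]
  have hi : MemLp ((A' ×ˢ B').indicator fun _ => (1 : ℂ)) 2 (μ.prod ν) :=
    (memLp_const _).indicator (hA'.prod hB')
  refine ext_L2 mp (fun _ => hi) hi.2.ne (fun _ => le_rfl) (fun A B hA hB => ?_) hf
  have hB2 : ∀ i, MeasurableSet ((![B, B'] : Fin 2 → Set Y) i) := by
    simp [Fin.forall_fin_two, hB, hB']
  have t : Tendsto (fun n => Q μ ν T Φ ![n, 0] ![B, B']) atTop (𝓝 0) := by
    refine Metric.tendsto_atTop.2 fun ε ε0 => ?_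
    obtain ⟨N0, hN⟩ := h _ hB2 _ (half_pos ε0)
    refine ⟨N0, fun n hn => ?_⟩
    rw [Real.dist_eq, sub_zero, abs_of_nonneg (a := Q _ _ _ _ _ _)
      (integral_nonneg fun _ => abs_nonneg _)]
    refine (hN _ ?_).trans_lt (half_lt_self ε0)
    simpa [Fin.forall_fin_two] using ⟨Or.inr hn, Or.inl hn⟩
  refine tendsto_of_tendsto_of_tendsto_of_le_of_le tendsto_const_nhds
    (by simpa using ENNReal.tendsto_ofReal t) (fun _ => zero_le) fun n => ?_
  have jc := hΦ.co hT.measurable n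
  have m : MeasurableSet {p : X × Y | co T Φ n p.1 p.2 ∈ B ∧ p.2 ∈ B'} :=
    (jc.m1 hB).inter (measurable_snd hB')
  have e : Q μ ν T Φ ![n, 0] ![B, B'] =
      ∫ x, |ν.real (co T Φ n x ⁻¹' B ∩ B') - ν.real B * ν.real B'| ∂μ := by
    simp only [Q, Fin.forall_fin_two, Fin.prod_univ_two]
    rfl
  show _ ≤ ENNReal.ofReal _
  rw [e, ofReal_integral_eq_lintegral_ofReal (int_of
    (f := fun x => |ν.real (co T Φ n x ⁻¹' B ∩ B') - ν.real B * ν.real B'|)
    (((fib_meas m).sub measurable_const).abs) fun x => by rw [abs_abs]; exact abs_le1 _ _ _) (Eventually.of_forall fun _ => abs_nonneg _)]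
  refine lintegral_mono fun x => ?_
  have i : ∀ s, MeasurableSet s → ∫ y, s.indicator (fun _ => (1 : ℂ)) y ∂ν = ν.real s :=
    fun s hs => by simp [integral_indicator hs]
  by_cases c : T^[n] x ∈ A ∧ x ∈ A'
  · have e1 : ∀ y, ((A ×ˢ B).indicator (fun _ => (1 : ℂ)) ∘ (sk T Φ)^[n]) (x, y) =
        (co T Φ n x ⁻¹' B).indicator (fun _ => 1) y := fun y => by
      classical
      simp [indicator_apply, sk_it, c.1]
    have e2 : ∀ y, (A' ×ˢ B').indicator (fun _ => (1 : ℂ)) (x, y) =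
        B'.indicator (fun _ => 1) y := fun y => by
      classical
      simp [indicator_apply, c.2]
    have m1 := (jc.mp x).measurable hB
    simp only [cov, e1, e2, ← inter_indicator_mul, mul_one]
    rw [i _ (m1.inter hB'), i _ m1, i _ hB', (jc.mp x).measureReal_preimage hB.nullMeasurableSet,
      ← ofReal_norm, ← Real.norm_eq_abs, ← Complex.norm_real]
    push_cast
    exact le_rfl
  · refine le_trans (le_of_eq ?_) zero_le
    rcases not_and_or.1 c with c | c <;> simp [cov, sk_it, c]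

lemma sq_bd {f : X × Y → ℂ} (hf : MemLp f 2 (μ.prod ν))
    (h : MemLp (fun x => √(∫ y, ‖f (x, y)‖ ^ 2 ∂ν)) ⊤ μ) :
    ∃ M : ℝ≥0∞, M ≠ ⊤ ∧ ∀ᵐ x ∂μ, sq ν f x ^ (1 / 2 : ℝ) ≤ M := by
  refine ⟨_, h.2.ne, ?_⟩
  filter_upwards [ae_le_eLpNormEssSup (f := fun x => √(∫ y, ‖f (x, y)‖ ^ 2 ∂ν)) (μ := μ),
    (hf.integrable_norm_pow two_ne_zero).prod_right_ae] with x h1 h2
  refine le_trans (le_of_eq ?_) (h1.trans_eq eLpNorm_exponent_top.symm)
  rw [Real.enorm_of_nonneg (Real.sqrt_nonneg _), Real.sqrt_eq_rpow,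
    ← ENNReal.ofReal_rpow_of_nonneg (integral_nonneg fun _ => by positivity) (by norm_num),
    ofReal_integral_eq_lintegral_ofReal h2 (Eventually.of_forall fun _ => by positivity), sq]
  congr 2
  ext y
  rw [ENNReal.ofReal_pow (norm_nonneg _), ofReal_norm]
  simp

theorem rel_L2 {T : X → X} (hT : MeasurePreserving T μ μ) {Φ : X → Y ≃ᵐ Y} (hΦ : JM ν Φ)
    (h : ∀ B : Fin 2 → Set Y, (∀ i, MeasurableSet (B i)) → ∀ ε > 0,
      ∃ N0, ∀ n : Fin 2 → ℕ, (∀ i j, i ≠ j → n i + N0 ≤ n j ∨ n j + N0 ≤ n i) →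
        Q μ ν T Φ n B ≤ ε) {S : X × Y → X × Y} (hS : sk T Φ =ᵐ[μ.prod ν] S)
    {f g : X × Y → ℂ} (hf : MemLp f 2 (μ.prod ν))
    (hf' : MemLp (fun x => √(∫ y, ‖f (x, y)‖ ^ 2 ∂ν)) ⊤ μ) (hg : MemLp g 2 (μ.prod ν))
    (hg' : MemLp (fun x => √(∫ y, ‖g (x, y)‖ ^ 2 ∂ν)) ⊤ μ) :
    Tendsto (fun n => eLpNorm (fun x => ∫ y, f (S^[n] (x, y)) * g (x, y) ∂ν -
      (∫ y, f (T^[n] x, y) ∂ν) * ∫ y, g (x, y) ∂ν) 2 μ) atTop (𝓝 0) := by
  have mp := fun n => (sk_mp hT hΦ).iterate n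
  obtain ⟨M, M0, hM⟩ := sq_bd hf hf'
  obtain ⟨K, K0, hK⟩ := sq_bd hg hg'
  have it : ∀ n, (sk T Φ)^[n] =ᵐ[μ.prod ν] S^[n] := fun n => by
    induction n with
    | zero => rfl
    | succ n ih =>
      filter_upwards [ih, (mp n).quasiMeasurePreserving.ae hS] with p h1 h2
      rw [Function.iterate_succ_apply', Function.iterate_succ_apply', h2, h1]
  have t := ((ENNReal.continuous_rpow_const (y := (1 / 2 : ℝ))).tendsto _).comp
    (ENNReal.Tendsto.const_mul (a := 2 * (M * K)) (rel_L1 hT hΦ h hf hg)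
      (Or.inr (by finiteness)))
  rw [mul_zero, ENNReal.zero_rpow_of_pos (by norm_num)] at t
  refine tendsto_of_tendsto_of_tendsto_of_le_of_le tendsto_const_nhds t (fun _ => zero_le)
    fun n => ?_
  have jc := hΦ.co hT.measurable n
  have e : ∀ x, MeasurePreserving (co T Φ n x) ν ν := jc.mp
  simp only [Function.comp]
  rw [eLpNorm_congr_ae (g := cov ν (f ∘ (sk T Φ)^[n]) g) (by
    filter_upwards [Measure.ae_ae_of_ae_prod (it n)] with x hx
    rw [cov]
    refine congrArg₂ _ ?_ (congrArg₂ _ ?_ rfl)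
    · exact integral_congr_ae (hx.mono fun y hy => by simp only [Function.comp, hy])
    · simp only [Function.comp, sk_it]
      exact ((e x).integral_comp' fun y => f (T^[n] x, y)).symm),
    eLpNorm_eq_lintegral_rpow_enorm_toReal (by simp) (by simp), ENNReal.toReal_ofNat, NN,
    ← lintegral_const_mul' _ _ (by finiteness)]
  refine ENNReal.rpow_le_rpow (lintegral_mono_ae ?_) (by norm_num)
  filter_upwards [cov_le (hf.comp_measurePreserving (mp n)).1 hg.1, hK,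
    (hT.iterate n).quasiMeasurePreserving.ae hM] with x h1 h2 h3
  rw [ENNReal.rpow_two, pow_two]
  refine mul_le_mul' (h1.trans (mul_le_mul' le_rfl (mul_le_mul' (le_trans (le_of_eq ?_) h3) h2)))
    le_rfl
  simp only [sq, Function.comp, sk_it]
  rw [(e x).lintegral_comp_emb (co T Φ n x).measurableEmbedding
    fun y => ‖f (T^[n] x, y)‖ₑ ^ (2 : ℝ)]

end Pool.Agent.H.MP_2967d5_an
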