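import Mathlib
import Pool.Agent.H.MP_2967d5_an.B

namespace Pool.Agent.H.MP_2967d5_an

open MeasureTheory Set Filter Topology ProbabilityTheory Pool.Agent.H.MP_a7cd30_an
  Pool.Agent.H.MP_5d8c24_an Pool.Agent.H.MP_4abfef_an
open scoped ENNReal

variable {X Y : Type} [MeasurableSpace X] [MeasurableSpace Y] {μ : Measure X} {ν : Measure Y}
  [IsProbabilityMeasure μ] [IsProbabilityMeasure ν] [StandardBorelSpace X] [StandardBorelSpace Y]

/-- extensions -/
def GR (μ : Measure X) (ν : Measure Y) (R : X → X) : Set (Aut (μ.prod ν)) :=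
  {T | ∀ᵐ p ∂μ.prod ν, (T.1 p).1 = R p.1}

omit [IsProbabilityMeasure μ] [IsProbabilityMeasure ν] [StandardBorelSpace Y] in
lemma GR_closed {R : X → X} (hR : Measurable R) : IsClosed[ta (μ.prod ν)] (GR μ ν R) := by
  let _ := ta (μ.prod ν)
  have : GR μ ν R = ⋂ (A : Set X) (_ : MeasurableSet A), {T | (μ.prod ν) (symmDiff
      (T.1.toFun ⁻¹' (Prod.fst ⁻¹' A)) (Prod.fst ⁻¹' (R ⁻¹' A))) = 0} := by
    ext T
    simp only [mem_iInter, mem_ofPred_eq, measure_symmDiff_eq_zero_iff]
    refine ⟨fun h A _ => ?_, fun h => EventuallyEq.of_forall_separating_preimage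
      (f := fun p => (T.1 p).1) (g := fun p => R p.1) MeasurableSet h⟩
    filter_upwards [h] with p hp
    show ((T.1 p).1 ∈ A) = (R p.1 ∈ A)
    rw [hp]
  rw [this]
  refine isClosed_iInter fun A => isClosed_iInter fun hA => isClosed_eq ?_ continuous_const
  exact continuous_iff_le_induced.2 (iInf_le_of_le _ (iInf_le_of_le _ (iInf_le_of_le
    (measurable_fst hA) (iInf_le_of_le (measurable_fst (hR hA)) le_rfl))))

omit [StandardBorelSpace X] [StandardBorelSpace Y] in
lemma sk_mem {R : X ≃ᵐ X} (hR : MeasurePreserving R μ μ) {Φ : X → Y ≃ᵐ Y} (j : JM ν Φ) :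
    ∃ e : GR μ ν R, ⇑e.1.1 = sk R Φ :=
  ⟨⟨⟨{ toFun := sk R Φ
       invFun := fun p => (R.symm p.1, (Φ (R.symm p.1)).symm p.2)
       left_inv := fun p => by simp [sk]
       right_inv := fun p => by simp [sk]
       measurable_toFun := (sk_mp hR j).measurable
       measurable_invFun := (R.symm.measurable.comp measurable_fst).prodMk
        (j.comp R.symm.measurable).m2 }, sk_mp hR j⟩,
    Eventually.of_forall (f := ae (μ.prod ν)) fun _ => rfl⟩, rfl⟩

theorem main [NullSingletonClass μ] [NullSingletonClass ν] (R : X ≃ᵐ X)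
    (hR : MeasurePreserving R μ μ) (mix : Mx μ R) {S : Set (GR μ ν R)}
    (hS : ∀ T : GR μ ν R, (∀ f g : X × Y → ℂ, MemLp f 2 (μ.prod ν) →
      MemLp (fun x => √(∫ y, ‖f (x, y)‖ ^ 2 ∂ν)) ⊤ μ → MemLp g 2 (μ.prod ν) →
      MemLp (fun x => √(∫ y, ‖g (x, y)‖ ^ 2 ∂ν)) ⊤ μ →
      Tendsto (fun n => eLpNorm (fun x => ∫ y, f (T.1.1^[n] (x, y)) * g (x, y) ∂ν -
        (∫ y, f (R^[n] x, y) ∂ν) * ∫ y, g (x, y) ∂ν) 2 μ) atTop (𝓝 0)) → T ∈ S) :
    S ∈ @residual _ ((wk (μ.prod ν)).induced Subtype.val) ∧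
      ¬ @IsMeagre _ ((wk (μ.prod ν)).induced Subtype.val) S := by
  rw [wk_eq]
  let _ := ta (μ.prod ν)
  have a : ∀ e : GR μ ν R, ∃ Φ, JM ν Φ ∧ sk R Φ =ᵐ[μ.prod ν] e.1.1 ∧
      ∀ Ψ, JM ν Ψ → ⇑e.1.1 = sk R Ψ → Φ = Ψ := fun e => by
    by_cases q : ∃ Ψ, JM ν Ψ ∧ ⇑e.1.1 = sk R Ψ
    · obtain ⟨Φ, h1, h2⟩ := q
      refine ⟨Φ, h1, h2 ▸ ae_eq_refl _, fun Ψ _ h => funext fun x => MeasurableEquiv.ext
        (funext fun y => ?_)⟩
      exact congrArg Prod.snd (congrFun (h2.symm.trans h) (x, y))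
    · obtain ⟨Φ, h1, h2⟩ := disint R hR e.1.1 e.1.2 e.2
      exact ⟨Φ, h1, h2, fun Ψ h3 h4 => (q ⟨Ψ, h3, h4⟩).elim⟩
  choose c hc h1 h2 using a
  have cg : ∀ e e0 A, (μ.prod ν).real (symmDiff (sk R (c e) ⁻¹' A) (sk R (c e0) ⁻¹' A)) =
      (μ.prod ν).real (symmDiff (e.1.1 ⁻¹' A) (e0.1.1 ⁻¹' A)) := fun e e0 A =>
    measureReal_congr (((h1 e).preimage A).symmDiff ((h1 e0).preimage A))
  have key := gen R hR mix c hc (fun Φ j => ?_) (fun e0 B hB => ?_) fun e0 U hU h0 => ?_
  · have r : S ∈ residual _ := by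
      filter_upwards [key] with e he
      exact hS e fun f g f1 f2 g1 g2 => rel_L2 hR (hc e) (he 2) (h1 e) f1 f2 g1 g2
    obtain ⟨e, -⟩ := sk_mem hR (JM.const (X := X) (R := MeasurableEquiv.refl Y)
      (MeasurePreserving.id ν))
    exact ⟨r, fun h => baire (GR_closed R.measurable) ⟨_, e.2⟩
      (by simpa using inter_mem r h)⟩
  · obtain ⟨e, he⟩ := sk_mem hR j
    exact ⟨e, h2 e Φ j he⟩
  · simp only [cg]
    exact tend_ta.1 (continuous_subtype_val.tendsto e0) _ (MeasurableSet.univ.prod hB)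
  · by_contra! q
    choose Φ Z h1 h2 h3 using fun n : ℕ => q (1 / (n + 1)) (by positivity)
    have t : Tendsto Φ atTop (𝓝 e0) := by
      refine tendsto_subtype_rng.2 (tend_ta.2 fun A hA => ?_)
      simp only [← cg]
      refine squeeze_zero (fun _ => measureReal_nonneg) (fun n => ?_)
        tendsto_one_div_add_atTop_nhds_zero_nat
      refine (measureReal_mono (s₂ := Z n ×ˢ univ) fun p hp => ⟨?_, trivial⟩).trans ?_
      · by_contra z
        simp only [mem_symmDiff, mem_preimage, sk, h2 n _ z] at hp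
        tauto
      · rw [measureReal_prod_prod, probReal_univ, mul_one]; exact h1 n
    obtain ⟨n, hn⟩ := (t.eventually (hU.mem_nhds h0)).exists
    exact h3 n hn

/-- the shift -/
def sh : (ℤ → ℝ) ≃ᵐ (ℤ → ℝ) := MeasurableEquiv.piCongrLeft (fun _ => ℝ) (Equiv.subRight 1)

lemma sh_it (n : ℕ) (x : ℤ → ℝ) (i : ℤ) : sh^[n] x i = x (i + n) := by
  induction n generalizing i with
  | zero => simp
  | succ n ih =>
    rw [Function.iterate_succ_apply', sh, MeasurableEquiv.coe_piCongrLeft,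
      Equiv.piCongrLeft_apply_eq_cast, cast_eq]
    refine (ih _).trans (congrArg x ?_)
    simp only [Equiv.subRight_symm_apply]
    push_cast; ring

lemma sh_mp : MeasurePreserving sh (Measure.infinitePi fun _ => mu)
    (Measure.infinitePi fun _ => mu) :=
  ⟨sh.measurable, Measure.infinitePi_map_piCongrLeft (fun _ : ℤ => mu) (Equiv.subRight 1)⟩

lemma sh_mx : Mx (Measure.infinitePi fun _ : ℤ => mu) sh := by
  intro A B hA hB
  have := lam_all (l := atTop) (V := fun (n : ℕ) (j : Fin 2) => sh^[![n, 0] j])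
    (fun _ _ => sh_mp.iterate _) generateFrom_squareCylinders.symm
    (isPiSystem_squareCylinders (fun _ => MeasurableSpace.isPiSystem_measurableSet) (by simp))
    ⟨∅, fun _ => univ, by simp, by simp⟩ (fun E hE => ?_) ![A, B]
    (by simp [Fin.forall_fin_two, hA, hB])
  · rw [Fin.prod_univ_two] at this
    refine this.congr fun n => congrArg _ ?_
    ext x; simp [Fin.forall_fin_two]
  choose s t ht e using hE
  obtain ⟨a, ha⟩ := (s 0).bddBelow
  obtain ⟨b, hb⟩ := (s 1).bddAbove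
  refine tendsto_const_nhds.congr' ?_
  filter_upwards [eventually_gt_atTop (b - a).toNat] with n hn
  have m : ∀ j, MeasurableSet (univ.pi fun i : s j => t j i) := fun j =>
    MeasurableSet.univ_pi fun i => ht j i trivial
  have hd : Disjoint ((s 0).image (· + (n : ℤ))) (s 1) := Finset.disjoint_left.2 fun i h1 h2 => by
    obtain ⟨k, hk, rfl⟩ := Finset.mem_image.1 h1
    have := ha hk
    have := hb h2
    omega
  have i1 := ((iIndepFun_infinitePi (P := fun _ : ℤ => mu) (X := fun _ x => x)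
    fun _ => measurable_id).indepFun_finset _ _ hd fun _ => measurable_pi_apply _).comp
    (φ := fun z (i : s 0) => z ⟨i + n, Finset.mem_image_of_mem _ i.2⟩) (by fun_prop) measurable_id
  have i2 := i1.measure_inter_preimage_eq_mul _ _ (m 0) (m 1)
  have mE : MeasurableSet (E 0) := e 0 ▸ MeasurableSet.pi (Finset.countable_toSet _)
    fun i _ => ht 0 i trivial
  rw [Fin.prod_univ_two, ← (sh_mp.iterate n).measureReal_preimage mE.nullMeasurableSet,
    Measure.real, Measure.real, Measure.real, ← ENNReal.toReal_mul]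
  congr 1
  convert i2.symm using 2
  · congr 1; ext x; simp [e, sh_it]
  · congr 1; ext x; simp [e]
  · ext x; simp [e, sh_it, Fin.forall_fin_two]

theorem ex_mix [NullSingletonClass μ] : ∃ R : X ≃ᵐ X, MeasurePreserving R μ μ ∧ Mx μ R := by
  have : NullSingletonClass (Measure.infinitePi fun _ : ℤ => mu) := ⟨fun x =>
    measure_mono_null (t := Function.eval 0 ⁻¹' {x 0}) (by simp [Function.eval])
      (((measurePreserving_eval_infinitePi _ 0).measure_preimage
        (measurableSet_singleton _).nullMeasurableSet).trans (measure_singleton _))⟩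
  obtain ⟨f1, g1, a1, b1, c1, d1⟩ := iso (μ := μ)
  obtain ⟨f2, g2, a2, b2, c2, d2⟩ := iso (μ := Measure.infinitePi fun _ : ℤ => mu)
  have hf := b2.comp a1
  have hg := b1.comp a2
  have gf : ∀ᵐ x ∂μ, (g1 ∘ f2) ((g2 ∘ f1) x) = x := by
    filter_upwards [c1, a1.quasiMeasurePreserving.ae d2] with x h1 h2
    simp only [Function.comp, h1, h2]
  have fg : ∀ᵐ x ∂(Measure.infinitePi fun _ : ℤ => mu), (g2 ∘ f1) ((g1 ∘ f2) x) = x := by
    filter_upwards [c2, a2.quasiMeasurePreserving.ae d1] with x h1 h2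
    simp only [Function.comp, h1, h2]
  generalize g2 ∘ f1 = f at hf gf fg
  generalize g1 ∘ f2 = g at hg gf fg
  obtain ⟨R, hR⟩ := realize' (hg.comp (sh_mp.comp hf))
    (hg.measurable.comp (sh.symm.measurable.comp hf.measurable)) (by
      filter_upwards [gf, (sh_mp.comp hf).quasiMeasurePreserving.ae fg] with y h1 h2
      simp only [Function.comp] at h2 ⊢
      rw [h2, sh.symm_apply_apply, h1])
  have mR : MeasurePreserving R.1 μ μ := R.2
  have it : ∀ n : ℕ, ∀ᵐ x ∂μ, R.1^[n] x = g (sh^[n] (f x)) := fun n => by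
    induction n with
    | zero => exact gf.mono fun _ h => h.symm
    | succ n ih =>
      filter_upwards [ih, (mR.iterate n).quasiMeasurePreserving.ae hR,
        ((sh_mp.iterate n).comp hf).quasiMeasurePreserving.ae fg] with x h1 h2 h3
      simp only [Function.comp] at h2 h3
      rw [Function.iterate_succ_apply', Function.iterate_succ_apply', h2, h1, h3]
  refine ⟨R.1, mR, fun A B hA hB => ?_⟩
  rw [← hg.measureReal_preimage hA.nullMeasurableSet, ← hg.measureReal_preimage hB.nullMeasurableSet]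
  refine (sh_mx _ _ (hg.measurable hA) (hg.measurable hB)).congr fun n => ?_
  rw [← hf.measureReal_preimage (((sh_mp.iterate n).measurable (hg.measurable hA)).inter
    (hg.measurable hB)).nullMeasurableSet]
  refine measureReal_congr ?_
  filter_upwards [it n, gf] with x h1 h2
  show (g (sh^[n] (f x)) ∈ A ∧ g (f x) ∈ B) = (R.1^[n] x ∈ A ∧ x ∈ B)
  rw [h1, h2]

end Pool.Agent.H.MP_2967d5_an
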